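import Pool.Agent.Helper57.QZ.Stmts

/-! QZ, row EX: `ζ` against the Euler product outside a small set. -/

set_option autoImplicit false

namespace Pool.Agent.Helper27.QZ

open MeasureTheory Set Filter Topology Pool.Agent.Helper57.QZ

theorem ex_of (h1 : ST_AR) (h2 : ST_BR) : ST_EX := by
  intro ε hε η hη κ hκ
  obtain ⟨y₀, hy₀⟩ := h1 ε hε (η / 4) (by linarith [hη.1]) κ hκ
  refine ⟨y₀, fun y hy => ?_⟩
  obtain ⟨T₀, hT₀, H⟩ := hy₀ y hy
  refine ⟨T₀, hT₀, fun T hT => ?_⟩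
  obtain ⟨E, hE, hEm, HE⟩ := H T hT
  refine ⟨E, hE, hEm, fun t ht htE σ hσ => ?_⟩
  obtain ⟨hF, hF'⟩ := HE t ht htE σ hσ
  have hσ0 : 0 < σ := by linarith [hσ.1, hε.1]
  have ht0 : t ≠ 0 := by
    have : 2 ≤ t := le_trans hT₀ (le_trans hT ht.1)
    linarith
  obtain ⟨hZ, hz, hd⟩ := h2 y σ t hσ0 ht0
  set Z := Zy y σ (lin y t) with hZdef
  set F := Fy y (pt σ t) with hFdef
  set F' := deriv (Fy y) (pt σ t) with hF'def
  set W := Wy y σ (lin y t) with hWdef
  have h0 := hη.1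
  have h12 := hη.2
  have hF1 : (1 / 2 : ℝ) ≤ ‖F + 1‖ := by
    have h3 : ‖(1 : ℂ)‖ ≤ ‖F + 1‖ + ‖F‖ := by
      calc ‖(1 : ℂ)‖ = ‖(F + 1) - F‖ := by congr 1; ring
        _ ≤ ‖F + 1‖ + ‖F‖ := norm_sub_le _ _
    rw [norm_one] at h3
    linarith
  have hF1' : F + 1 ≠ 0 := by
    intro h
    rw [h, norm_zero] at hF1
    linarith
  have hzne : riemannZeta (pt σ t) ≠ 0 := by
    rw [hz]; exact mul_ne_zero hZ hF1'
  refine ⟨hzne, ?_, ?_⟩
  · have e : riemannZeta (pt σ t) / Z - 1 = F := by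
      rw [hz]; field_simp; ring
    rw [e]; linarith
  · have e : deriv riemannZeta (pt σ t) / riemannZeta (pt σ t) - W = F' / (F + 1) := by
      rw [hd]
      have : (Z * F' + W * riemannZeta (pt σ t)) / riemannZeta (pt σ t) - W =
          Z * F' / riemannZeta (pt σ t) := by
        field_simp; ring
      rw [this, hz]
      field_simp
    rw [e, norm_div, div_le_iff₀ (by linarith)]
    nlinarith

end Pool.Agent.Helper27.QZ
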